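import Pool.Agent.H165.HW.PairMain

/-!
Project TW: the two extreme points of a bad arc in a given direction.
-/

set_option autoImplicit false

open Finset

namespace Pool.Agent.H786.TW

open Pool.Agent.H332.HT (V2 V3 det P IP T C Full Good Bi)
open Pool.Agent.H165.HW

theorem ip_mk (u : V2) (α : ℝ) (p : V2) (z : ℝ) : ip ((u, α) : V3) (p, z) = dt u p + α * z := rfl

theorem dt_smul_right (u : V2) (c : ℝ) (p : V2) : dt u (c • p) = c * dt u p := by
  simp only [dt, Prod.smul_fst, Prod.smul_snd, smul_eq_mul]; ring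

theorem dt_sub_right (u p r : V2) : dt u (p - r) = dt u p - dt u r := by
  simp only [dt, Prod.fst_sub, Prod.snd_sub]; ring

/-- a bad arc has an upper point and a lower point such that the slopes in the direction `-e` at
the upper point are at most `σ`, and the slopes at the lower point are at least `σ` -/
theorem two {lam : ℝ} {K : Set V3} (hK : GB lam K) {q : ℝ → V2} (hq : Par K q) {a b : ℝ}
    {e : V2} {s : ℝ} (he : e ≠ 0) (hs : s ≠ 0)
    (hin : ∀ t, a ≤ t → t ≤ b → ∃ r ∈ P K, ∃ D ρ l : ℝ, 0 < D ∧ 0 < ρ ∧ 0 ≤ l ∧ l ≤ ρ ∧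
      D • e = ρ • q t - l • r ∧ (l < ρ ∨ 0 ≤ s * det e (q t)))
    (hbad : ¬ Good K q a b) :
    ∃ t z t' z' σ : ℝ, a ≤ t ∧ t ≤ b ∧ a ≤ t' ∧ t' ≤ b ∧ ((q t, z) : V3) ∈ K ∧
      ((q t', z') : V3) ∈ K ∧
      (∀ (r : V2) (w D ρ l : ℝ), ((r, w) : V3) ∈ K → 0 ≤ D → 0 ≤ l → l ≤ ρ →
        D • e = ρ • q t - l • r → ρ * (1 - z) - l * (1 - w) ≤ D * σ) ∧
      (∀ (r : V2) (w D ρ l : ℝ), ((r, w) : V3) ∈ K → 0 ≤ D → 0 ≤ l → l ≤ ρ →
        D • e = ρ • q t' - l • r → D * σ ≤ -(ρ * (1 + z') - l * (1 + w))) := by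
  obtain ⟨k, θ, z, n, hk, hθa, hθb, hx, hn, hn0, hsum⟩ := cert_arc hK hq hbad
  have sE := dt_sum n e hsum
  have sh := ht_sum n hsum
  have hz0 : ∀ ν : V2, dt ν 0 = 0 := fun ν => by simp [dt]
  -- the inequalities for one normal
  have row : ∀ i (r : V2) (w D ρ l : ℝ), ((r, w) : V3) ∈ K → 0 ≤ l → l ≤ ρ →
      D • e = ρ • q (θ i) - l • r →
      (n i).2 * (ρ * (1 - z i) - l * (1 - w)) ≤ D * dt (n i).1 e ∧
      -(n i).2 * (ρ * (1 + z i) - l * (1 + w)) ≤ D * dt (n i).1 e := by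
    intro i r w D ρ l hr hl hlρ hDe
    have h1 : D * dt (n i).1 e = ρ * dt (n i).1 (q (θ i)) - l * dt (n i).1 r := by
      rw [← dt_smul_right, hDe, dt_sub_right, dt_smul_right, dt_smul_right]
    have h2 := hn i _ hr
    have h3 := hn i _ hK.N
    have h4 := hn i _ hK.S
    simp only [ip, hz0, zero_add] at h2 h3 h4
    rw [h1]
    have h5 := mul_le_mul_of_nonneg_left h2 hl
    have h6 := mul_le_mul_of_nonneg_left h3 (sub_nonneg.2 hlρ)
    have h7 := mul_le_mul_of_nonneg_left h4 (sub_nonneg.2 hlρ)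
    constructor <;> nlinarith
  -- horizontal normals
  have hmax : ∀ i, (n i).2 = 0 → ∀ r ∈ P K, dt (n i).1 r ≤ dt (n i).1 (q (θ i)) := by
    rintro i h0 r ⟨y, hy, rfl⟩
    have := hn i y hy
    simp only [ip, h0, zero_mul, add_zero] at this
    exact this
  have hXpos : ∀ i, (n i).2 = 0 → 0 < dt (n i).1 (q (θ i)) := by
    intro i h0
    exact dt_pos hK (fun hc => hn0 i (Prod.ext hc h0)) (hmax i h0)
  have hhor : ∀ i, (n i).2 = 0 → 0 ≤ dt (n i).1 e ∧
      (dt (n i).1 e = 0 → 0 < s * det e (n i).1) := by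
    intro i h0
    obtain ⟨r, hr, D, ρ, l, hD, hρ, hl, hlρ, hDe, hside⟩ := hin (θ i) (hθa i) (hθb i)
    have h1 : D * dt (n i).1 e = ρ * dt (n i).1 (q (θ i)) - l * dt (n i).1 r := by
      rw [← dt_smul_right, hDe, dt_sub_right, dt_smul_right, dt_smul_right]
    have h2 := hmax i h0 r hr
    have h3 := hXpos i h0
    have h4 := mul_le_mul_of_nonneg_left h2 hl
    have h5 := mul_le_mul_of_nonneg_right hlρ h3.le
    have h6 : 0 ≤ D * dt (n i).1 e := by rw [h1]; linarith
    refine ⟨?_, ?_⟩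
    · by_contra hc
      push Not at hc
      have := mul_neg_of_pos_of_neg hD hc
      linarith
    · intro h7
      have h8 : 0 ≤ s * det e (q (θ i)) := by
        rcases hside with h | h
        · exfalso
          have := mul_lt_mul_of_pos_right h h3
          rw [h7, mul_zero] at h1
          linarith
        · exact h
      have e1 : det e (n i).1 * det e (q (θ i)) =
          (e.1 ^ 2 + e.2 ^ 2) * dt (n i).1 (q (θ i)) - dt e (q (θ i)) * dt (n i).1 e := by
        simp only [det, dt]; ring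
      rw [h7, mul_zero, sub_zero] at e1
      have he2 : 0 < e.1 ^ 2 + e.2 ^ 2 := by
        rcases eq_or_ne e.1 0 with h | h
        · rcases eq_or_ne e.2 0 with h' | h'
          · exact absurd (Prod.ext h h') he
          · positivity
        · positivity
      have h9 : 0 < det e (n i).1 * det e (q (θ i)) := by
        rw [e1]; exact mul_pos he2 h3
      have h10 : 0 < (s * det e (n i).1) * (s * det e (q (θ i))) := by
        have : (s * det e (n i).1) * (s * det e (q (θ i))) =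
            s ^ 2 * (det e (n i).1 * det e (q (θ i))) := by ring
        rw [this]
        exact mul_pos (by positivity) h9
      exact (pos_iff_pos_of_mul_pos h10).2 (lt_of_le_of_ne h8 (by
        intro h; rw [← h, mul_zero] at h10; exact lt_irrefl _ h10))
  -- not all normals are horizontal
  have hnh : ∃ i, (n i).2 ≠ 0 := by
    by_contra hcon
    push Not at hcon
    have hz : ∀ i ∈ univ, dt (n i).1 e = 0 :=
      (sum_eq_zero_iff_of_nonneg (fun i _ => (hhor i (hcon i)).1)).1 sE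
    have h3 := dt_sum n (-e.2, e.1) hsum
    have h4 : 0 < ∑ i, s * det e (n i).1 :=
      sum_pos (fun i _ => (hhor i (hcon i)).2 (hz i (mem_univ i))) ⟨⟨0, hk⟩, mem_univ _⟩
    have h5 : ∑ i, s * det e (n i).1 = s * ∑ i, dt (n i).1 (-e.2, e.1) := by
      rw [mul_sum]
      refine sum_congr rfl fun i _ => ?_
      simp only [det, dt]; ring
    rw [h5, h3, mul_zero] at h4
    exact lt_irrefl _ h4
  have hU : ∃ i, 0 < (n i).2 := by
    by_contra hcon
    push Not at hcon
    obtain ⟨i, hi⟩ := hnh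
    have : ∑ i, (n i).2 < 0 :=
      sum_neg' (fun j _ => hcon j) ⟨i, mem_univ _, lt_of_le_of_ne (hcon i) hi⟩
    linarith
  obtain ⟨U, hUd⟩ : ∃ U : Finset (Fin k), U = univ.filter (fun i => 0 < (n i).2) := ⟨_, rfl⟩
  have mU : ∀ i, i ∈ U ↔ 0 < (n i).2 := fun i => by rw [hUd]; simp
  have hUne : U.Nonempty := by
    obtain ⟨i, hi⟩ := hU
    exact ⟨i, (mU i).2 hi⟩
  obtain ⟨i, hiU, hmin⟩ := exists_min_image U (fun i => dt (n i).1 e / (n i).2) hUne
  have hi0 : 0 < (n i).2 := (mU i).1 hiU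
  obtain ⟨σ, hσ⟩ : ∃ σ, σ = dt (n i).1 e / (n i).2 := ⟨_, rfl⟩
  have hj : ∃ j, (n j).2 < 0 ∧ σ * (n j).2 ≥ dt (n j).1 e := by
    by_contra hcon
    push Not at hcon
    have hge : ∀ j, σ * (n j).2 ≤ dt (n j).1 e := by
      intro j
      rcases lt_trichotomy 0 (n j).2 with h | h | h
      · have h1 := hmin j ((mU j).2 h)
        rw [← hσ, le_div_iff₀ h] at h1
        exact h1
      · rw [← h, mul_zero]
        exact (hhor j h.symm).1
      · exact (hcon j h).le
    have hD : ∃ j, (n j).2 < 0 := by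
      by_contra hc
      push Not at hc
      have : 0 < ∑ i, (n i).2 := sum_pos' (fun j _ => hc j) ⟨i, mem_univ _, hi0⟩
      linarith
    obtain ⟨j, hj⟩ := hD
    have h2 : ∑ j, σ * (n j).2 < ∑ j, dt (n j).1 e :=
      sum_lt_sum (fun j _ => hge j) ⟨j, mem_univ _, hcon j hj⟩
    rw [← mul_sum, sh, sE, mul_zero] at h2
    exact lt_irrefl _ h2
  obtain ⟨j, hj0, hj1⟩ := hj
  refine ⟨θ i, z i, θ j, z j, σ, hθa i, hθb i, hθa j, hθb j, hx i, hx j, ?_, ?_⟩
  · intro r w D ρ l hr hD hl hlρ hDe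
    have h1 := (row i r w D ρ l hr hl hlρ hDe).1
    have h2 : σ * (n i).2 = dt (n i).1 e := by
      rw [hσ]; field_simp
    have h3 : (n i).2 * (ρ * (1 - z i) - l * (1 - w)) ≤ (n i).2 * (D * σ) := by
      rw [← h2] at h1
      linarith
    exact le_of_mul_le_mul_left h3 hi0
  · intro r w D ρ l hr hD hl hlρ hDe
    have h1 := (row j r w D ρ l hr hl hlρ hDe).2
    have h2 : D * dt (n j).1 e ≤ D * (σ * (n j).2) := mul_le_mul_of_nonneg_left hj1 hD
    have h3 : -(n j).2 * (ρ * (1 + z j) - l * (1 + w)) ≤ -(n j).2 * (-(D * σ)) := by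
      linarith
    have h4 := le_of_mul_le_mul_left h3 (by linarith : 0 < -(n j).2)
    linarith

end Pool.Agent.H786.TW
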