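import Pool.Agent.H786.TW.Core
import Pool.Agent.H786.TW.Two
import Pool.Agent.H221.TW.Stm

/-!
Project TW: the lemma on three bad arcs (CH3).
-/

set_option autoImplicit false

namespace Pool.Agent.H786.TW

open Pool.Agent.H332.HT (V2 V3 det P IP T C Full Good Bi)
open Pool.Agent.H165.HW

theorem ch3' {lam : ℝ} {K : Set V3} (hK : GB lam K) {q : ℝ → V2} (hq : Par K q)
    {a₁ b₁ a₂ b₂ a₃ b₃ : ℝ} (h1 : a₁ ≤ b₁) (h2 : b₁ < a₂) (h3 : a₂ ≤ b₂) (h4 : b₂ < a₃)
    (h5 : a₃ ≤ b₃) (h6 : b₂ < a₁ + Real.pi) (h7 : b₃ < a₂ + Real.pi)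
    (R1 : det (q a₁) (q b₁) ≤ det (q a₁) (q b₂)) (R3 : det (q a₃) (q b₃) ≤ det (q a₂) (q b₃))
    (hT : 0 < det (q b₂ - q b₃) (q a₂ - q a₁))
    (hC : det (q a₁) (q b₁) * det (q a₃) (q b₃) < det (q b₁) (q a₂) * det (q b₂) (q a₃))
    (g1 : ¬ Good K q a₁ b₁) (g2 : ¬ Good K q a₂ b₂) (g3 : ¬ Good K q a₃ b₃) :
    Bi K q a₁ b₁ ∧ Bi K q a₂ b₂ := by
  have nn : ∀ s t : ℝ, s ≤ t → t < s + Real.pi → 0 ≤ det (q s) (q t) := by
    intro s t hst hts
    rcases eq_or_lt_of_le hst with h | h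
    · rw [h, det_self]
    · exact (hq.pos s t h hts).le
  have hpi := Real.pi_pos
  rcases le_or_gt (det (q a₂) (q b₂)) (det (q a₁) (q b₂)) with hκ | hκ
  · exact pair lam K hK q hq a₁ b₁ a₂ b₂ h1 h2 h3 h6 R1 hκ g1 g2
  -- the vectors
  have c5 : 0 < det (q a₁) (q a₂) := hq.pos _ _ (by linarith) (by linarith)
  have c6 : 0 < det (q a₂) (q b₃) := hq.pos _ _ (by linarith) (by linarith)
  have c7 : 0 < det (q a₁) (q b₂) := hq.pos _ _ (by linarith) (by linarith)
  have cB : 0 < det (q b₂) (q b₃) := hq.pos _ _ (by linarith) (by linarith)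
  have K1 : 0 < det (q a₂ - q a₁) (q b₂) := by
    have : det (q a₂ - q a₁) (q b₂) = det (q a₂) (q b₂) - det (q a₁) (q b₂) := by
      simp only [det, Prod.fst_sub, Prod.snd_sub]; ring
    linarith
  have U1 : det (q a₂ - q a₁) (q b₂) < det (q a₂ - q a₁) (q b₃) := by
    have : det (q a₂ - q a₁) (q b₃) - det (q a₂ - q a₁) (q b₂) =
        det (q b₂ - q b₃) (q a₂ - q a₁) := by
      simp only [det, Prod.fst_sub, Prod.snd_sub]; ring
    linarith
  have U0 : 0 < det (q a₂ - q a₁) (q b₃) := K1.trans U1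
  -- `C` at all points
  have hC' : ∀ t₁ t₃ : ℝ, a₁ ≤ t₁ → t₁ ≤ b₁ → a₃ ≤ t₃ → t₃ ≤ b₃ →
      det (q a₁) (q t₁) * det (q t₃) (q b₃) < det (q t₁) (q a₂) * det (q b₂) (q t₃) := by
    intro t₁ t₃ u1 u2 u3 u4
    have p1 : 0 < det (q b₁) (q a₂) := hq.pos _ _ (by linarith) (by linarith)
    have p2 : 0 < det (q b₂) (q a₃) := hq.pos _ _ (by linarith) (by linarith)
    have p3 : 0 < det (q t₁) (q a₂) := hq.pos _ _ (by linarith) (by linarith)
    have p4 : 0 < det (q b₂) (q t₃) := hq.pos _ _ (by linarith) (by linarith)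
    have p5 : 0 ≤ det (q a₁) (q t₁) := nn _ _ u1 (by linarith)
    have p6 : 0 ≤ det (q t₃) (q b₃) := nn _ _ u4 (by linarith)
    have p7 : 0 ≤ det (q t₁) (q b₁) := nn _ _ u2 (by linarith)
    have p8 : 0 ≤ det (q a₃) (q t₃) := nn _ _ u3 (by linarith)
    have i1 : det (q a₁) (q b₁) * det (q t₁) (q a₂) =
        det (q a₁) (q t₁) * det (q b₁) (q a₂) + det (q a₁) (q a₂) * det (q t₁) (q b₁) := by
      simp only [det]; ring
    have i2 : det (q b₂) (q t₃) * det (q a₃) (q b₃) =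
        det (q b₂) (q a₃) * det (q t₃) (q b₃) + det (q b₂) (q b₃) * det (q a₃) (q t₃) := by
      simp only [det]; ring
    have j1 : det (q a₁) (q t₁) * det (q b₁) (q a₂) ≤ det (q a₁) (q b₁) * det (q t₁) (q a₂) := by
      have := mul_nonneg c5.le p7
      linarith
    have j2 : det (q b₂) (q a₃) * det (q t₃) (q b₃) ≤ det (q b₂) (q t₃) * det (q a₃) (q b₃) := by
      have := mul_nonneg cB.le p8
      linarith
    have j3 := mul_le_mul j1 j2 (mul_nonneg p2.le p6)
      (mul_nonneg (nn _ _ h1 (by linarith)) p3.le)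
    have j4 := mul_lt_mul_of_pos_left hC (mul_pos p3 p4)
    have j5 : (det (q b₁) (q a₂) * det (q b₂) (q a₃)) *
        (det (q a₁) (q t₁) * det (q t₃) (q b₃)) <
        (det (q b₁) (q a₂) * det (q b₂) (q a₃)) *
        (det (q t₁) (q a₂) * det (q b₂) (q t₃)) := by
      nlinarith
    exact lt_of_mul_lt_mul_left j5 (mul_pos p1 p2).le
  -- arc 1
  have A1 := two hK hq (a := a₁) (b := b₁) (e := q a₁) (s := 1)
    (by intro h; rw [h] at c5; simp [det] at c5) one_ne_zero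
    (by
      intro t u1 u2
      refine ⟨q b₂, hq.mem _, det (q t) (q b₂), det (q a₁) (q b₂), det (q a₁) (q t),
        hq.pos _ _ (by linarith) (by linarith), c7, nn _ _ u1 (by linarith), ?_, ?_, ?_⟩
      · exact rows₁ hK hq h1 h6 R1 u1 u2 (by linarith) le_rfl
      · ext
        · simp only [det, Prod.fst_sub, Prod.smul_fst, smul_eq_mul]; ring
        · simp only [det, Prod.snd_sub, Prod.smul_snd, smul_eq_mul]; ring
      · right
        rw [one_mul]
        exact nn _ _ u1 (by linarith)) g1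
  -- arc 3
  have A3 := two hK hq (a := a₃) (b := b₃) (e := q b₃) (s := -1)
    (by intro h; rw [h] at c6; simp [det] at c6) (by norm_num)
    (by
      intro t u1 u2
      refine ⟨q a₂, hq.mem _, det (q a₂) (q t), det (q a₂) (q b₃), det (q t) (q b₃),
        hq.pos _ _ (by linarith) (by linarith), c6, nn _ _ u2 (by linarith), ?_, ?_, ?_⟩
      · exact rows₂ hK hq h5 h7 R3 le_rfl (by linarith) u1 u2
      · ext
        · simp only [det, Prod.fst_sub, Prod.smul_fst, smul_eq_mul]; ring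
        · simp only [det, Prod.snd_sub, Prod.smul_snd, smul_eq_mul]; ring
      · right
        have := nn t b₃ u2 (by linarith)
        have e1 : (-1 : ℝ) * det (q b₃) (q t) = det (q t) (q b₃) := by
          simp only [det]; ring
        rw [e1]
        exact this) g3
  -- arc 2, the two cases
  have rowA : ∀ t₂ t₃ : ℝ, a₂ ≤ t₂ → t₂ ≤ b₂ → b₂ < t₃ → t₃ ≤ b₃ →
      0 ≤ det (q a₂ - q a₁) (q t₂) →
      det (q a₂ - q a₁) (q t₂) < det (q a₂ - q a₁) (q t₃) := by
    intro t₂ t₃ u1 u2 u3 u4 u5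
    have st1 : det (q a₂ - q a₁) (q t₂) ≤ det (q a₂ - q a₁) (q b₂) := by
      rcases eq_or_lt_of_le u2 with h | h
      · rw [h]
      · have tr := tri hK hq h (by linarith : b₂ < b₃) (by linarith)
        have p1 := hq.pos t₂ b₂ h (by linarith)
        have e1 : det (q t₂) (q b₃) * det (q a₂ - q a₁) (q b₂) =
            det (q b₂) (q b₃) * det (q a₂ - q a₁) (q t₂) +
            det (q t₂) (q b₂) * det (q a₂ - q a₁) (q b₃) := by
          simp only [det]; ring
        by_contra hcon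
        push Not at hcon
        have k1 := mul_lt_mul_of_pos_left hcon cB
        have k2 := mul_lt_mul_of_pos_left U1 p1
        have k3 := mul_le_mul_of_nonneg_right tr K1.le
        linarith
    have st2 : det (q a₂ - q a₁) (q b₂) < det (q a₂ - q a₁) (q t₃) := by
      rcases eq_or_lt_of_le u4 with h | h
      · rw [h]; exact U1
      · have tr := tri hK hq u3 h (by linarith)
        have p1 := hq.pos b₂ t₃ u3 (by linarith)
        have e1 : det (q b₂) (q b₃) * det (q a₂ - q a₁) (q t₃) =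
            det (q t₃) (q b₃) * det (q a₂ - q a₁) (q b₂) +
            det (q b₂) (q t₃) * det (q a₂ - q a₁) (q b₃) := by
          simp only [det]; ring
        by_contra hcon
        push Not at hcon
        have k1 := mul_le_mul_of_nonneg_left hcon cB.le
        have k2 := mul_lt_mul_of_pos_left U1 p1
        have k3 := mul_le_mul_of_nonneg_right tr K1.le
        linarith
    exact lt_of_le_of_lt st1 st2
  have rowB : ∀ t₁ t₂ : ℝ, a₁ ≤ t₁ → t₁ ≤ b₁ → a₂ ≤ t₂ → t₂ ≤ b₂ →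
      0 ≤ det (q t₂) (q a₂ - q a₁) →
      det (q t₂) (q a₂ - q a₁) ≤ det (q t₁) (q a₂ - q a₁) := by
    intro t₁ t₂ u1 u2 u3 u4 u5
    have i1 : det (q t₂) (q a₂ - q a₁) = det (q a₁) (q t₂) - det (q a₂) (q t₂) := by
      simp only [det, Prod.fst_sub, Prod.snd_sub]; ring
    have i2 : det (q t₁) (q a₂ - q a₁) = det (q a₁) (q t₁) + det (q t₁) (q a₂) := by
      simp only [det, Prod.fst_sub, Prod.snd_sub]; ring
    have k1 : det (q a₁) (q t₂) ≤ det (q a₁) (q a₂) + det (q a₂) (q t₂) := by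
      rcases eq_or_lt_of_le u3 with h | h
      · rw [← h, det_self]; linarith
      · exact tri hK hq (by linarith) h (by linarith)
    have k2 : det (q a₁) (q a₂) ≤ det (q a₁) (q t₁) + det (q t₁) (q a₂) := by
      rcases eq_or_lt_of_le u1 with h | h
      · rw [← h, det_self]; linarith
      · exact tri hK hq h (by linarith) (by linarith)
    rw [i1, i2]
    linarith
  have A2 := two hK hq (a := a₂) (b := b₂) (e := q a₂ - q a₁) (s := -1)
    (by intro h; rw [h] at K1; simp [det] at K1) (by norm_num)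
    (by
      intro t u1 u2
      rcases le_total 0 (det (q a₂ - q a₁) (q t)) with u | u
      · refine ⟨q b₃, hq.mem _, det (q t) (q b₃), det (q a₂ - q a₁) (q b₃),
          det (q a₂ - q a₁) (q t), hq.pos _ _ (by linarith) (by linarith), U0, u, ?_, ?_, ?_⟩
        · exact (rowA t b₃ u1 u2 (by linarith) le_rfl u).le
        · ext
          · simp only [det, Prod.fst_sub, Prod.snd_sub, Prod.smul_fst, smul_eq_mul]; ring
          · simp only [det, Prod.fst_sub, Prod.snd_sub, Prod.smul_snd, smul_eq_mul]; ring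
        · left
          exact rowA t b₃ u1 u2 (by linarith) le_rfl u
      · have u' : 0 ≤ det (q t) (q a₂ - q a₁) := by
          have e1 : det (q t) (q a₂ - q a₁) = -det (q a₂ - q a₁) (q t) := by
            simp only [det]; ring
          rw [e1]; linarith
        have hpos : 0 < det (q a₁) (q a₂ - q a₁) := by
          have e1 : det (q a₁) (q a₂ - q a₁) = det (q a₁) (q a₂) := by
            simp only [det, Prod.fst_sub, Prod.snd_sub]; ring
          rw [e1]; exact c5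
        refine ⟨q a₁, hq.mem _, det (q a₁) (q t), det (q a₁) (q a₂ - q a₁),
          det (q t) (q a₂ - q a₁), hq.pos _ _ (by linarith) (by linarith), hpos, u', ?_, ?_, ?_⟩
        · exact rowB a₁ t le_rfl h1 u1 u2 u'
        · ext
          · simp only [det, Prod.fst_sub, Prod.snd_sub, Prod.smul_fst, smul_eq_mul]; ring
          · simp only [det, Prod.fst_sub, Prod.snd_sub, Prod.smul_snd, smul_eq_mul]; ring
        · right
          linarith) g2
  obtain ⟨t₁, z₁, t₁', z₁', σ₁, ta1, tb1, ta1', tb1', m1, m1', up1, lo1⟩ := A1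
  obtain ⟨t₂, z₂, t₂', z₂', σ₂, ta2, tb2, ta2', tb2', m2, m2', up2, lo2⟩ := A2
  obtain ⟨t₃, z₃, t₃', z₃', σ₃, ta3, tb3, ta3', tb3', m3, m3', up3, lo3⟩ := A3
  have Z : ∀ (p : V2) (z : ℝ), ((p, z) : V3) ∈ K → 0 ≤ 1 - z ∧ 0 ≤ 1 + z := by
    intro p z h
    have := abs_le.1 (hK.ht p z h)
    constructor <;> linarith [this.1, this.2]
  -- common facts for a triple
  have F : ∀ (s₁ s₂ s₃ X₁ X₂ X₃ r₁ r₂ r₃ : ℝ), a₁ ≤ s₁ → s₁ ≤ b₁ → a₂ ≤ s₂ → s₂ ≤ b₂ →
      a₃ ≤ s₃ → s₃ ≤ b₃ → 0 ≤ X₁ → 0 ≤ X₂ → 0 ≤ X₃ →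
      (det (q a₁) (q s₂) * X₁ - det (q a₁) (q s₁) * X₂ ≤ det (q s₁) (q s₂) * r₁) →
      (det (q s₂) (q b₃) * X₃ - det (q s₃) (q b₃) * X₂ ≤ det (q s₂) (q s₃) * r₃) →
      (0 ≤ det (q a₂ - q a₁) (q s₂) → det (q a₂ - q a₁) (q s₃) * X₂ -
        det (q a₂ - q a₁) (q s₂) * X₃ ≤ det (q s₂) (q s₃) * r₂) →
      (0 ≤ det (q s₂) (q a₂ - q a₁) → det (q s₁) (q a₂ - q a₁) * X₂ -
        det (q s₂) (q a₂ - q a₁) * X₁ ≤ det (q s₁) (q s₂) * r₂) →
      ∃ c : ℝ, 0 < c ∧ c * X₂ ≤ det (q b₂) (q b₃) * (r₁ + r₂) +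
        det (q a₂ - q a₁) (q b₂) * r₃ := by
    intro s₁ s₂ s₃ X₁ X₂ X₃ r₁ r₂ r₃ v1 v2 v3 v4 v5 v6 x1 x2 x3 y1 y3 y2 y2'
    refine core x1 x2 x3 (hq.pos _ _ (by linarith) (by linarith))
      (hq.pos _ _ (by linarith) (by linarith)) cB K1 U1 (nn _ _ v1 (by linarith))
      (hq.pos _ _ (by linarith) (by linarith)) (hq.pos _ _ (by linarith) (by linarith))
      (nn _ _ v6 (by linarith)) c5 c6 c7 (hq.pos _ _ (by linarith) (by linarith))
      (hq.pos _ _ (by linarith) (by linarith)) (nn _ _ v4 (by linarith))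
      (nn _ _ v3 (by linarith)) (hq.pos _ _ (by linarith) (by linarith))
      (hC' s₁ s₃ v1 v2 v5 v6) y1 y3 ?_
    rcases le_total 0 (det (q a₂ - q a₁) (q s₂)) with u | u
    · exact Or.inl ⟨u, y2 u⟩
    · have u' : 0 ≤ det (q s₂) (q a₂ - q a₁) := by
        have e1 : det (q s₂) (q a₂ - q a₁) = -det (q a₂ - q a₁) (q s₂) := by
          simp only [det]; ring
        rw [e1]; linarith
      exact Or.inr ⟨u', y2' u'⟩
  -- the upper triple
  obtain ⟨c, hc, G1⟩ := F t₁ t₂ t₃ (1 - z₁) (1 - z₂) (1 - z₃) σ₁ σ₂ σ₃ ta1 tb1 ta2 tb2 ta3 tb3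
    (Z _ _ m1).1 (Z _ _ m2).1 (Z _ _ m3).1
    (up1 (q t₂) z₂ (det (q t₁) (q t₂)) (det (q a₁) (q t₂)) (det (q a₁) (q t₁)) m2
      (hq.pos _ _ (by linarith) (by linarith)).le (nn _ _ ta1 (by linarith))
      (rows₁ hK hq h1 h6 R1 ta1 tb1 (by linarith) tb2)
      (by ext <;> simp only [det, Prod.fst_sub, Prod.snd_sub, Prod.smul_fst, Prod.smul_snd,
        smul_eq_mul] <;> ring))
    (up3 (q t₂) z₂ (det (q t₂) (q t₃)) (det (q t₂) (q b₃)) (det (q t₃) (q b₃)) m2
      (hq.pos _ _ (by linarith) (by linarith)).le (nn _ _ tb3 (by linarith))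
      (rows₂ hK hq h5 h7 R3 ta2 (by linarith) ta3 tb3)
      (by ext <;> simp only [det, Prod.fst_sub, Prod.snd_sub, Prod.smul_fst, Prod.smul_snd,
        smul_eq_mul] <;> ring))
    (fun u => up2 (q t₃) z₃ (det (q t₂) (q t₃)) (det (q a₂ - q a₁) (q t₃))
      (det (q a₂ - q a₁) (q t₂)) m3
      (hq.pos _ _ (by linarith) (by linarith)).le u
      (rowA t₂ t₃ ta2 tb2 (by linarith) tb3 u).le
      (by ext <;> simp only [det, Prod.fst_sub, Prod.snd_sub, Prod.smul_fst, Prod.smul_snd,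
        smul_eq_mul] <;> ring))
    (fun u => up2 (q t₁) z₁ (det (q t₁) (q t₂)) (det (q t₁) (q a₂ - q a₁))
      (det (q t₂) (q a₂ - q a₁)) m1
      (hq.pos _ _ (by linarith) (by linarith)).le u
      (rowB t₁ t₂ ta1 tb1 ta2 tb2 u)
      (by ext <;> simp only [det, Prod.fst_sub, Prod.snd_sub, Prod.smul_fst, Prod.smul_snd,
        smul_eq_mul] <;> ring))
  -- the lower triple
  obtain ⟨c', hc', G2⟩ := F t₁' t₂' t₃' (1 + z₁') (1 + z₂') (1 + z₃') (-σ₁) (-σ₂) (-σ₃)
    ta1' tb1' ta2' tb2' ta3' tb3'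
    (Z _ _ m1').2 (Z _ _ m2').2 (Z _ _ m3').2
    (by
      have := lo1 (q t₂') z₂' (det (q t₁') (q t₂')) (det (q a₁) (q t₂')) (det (q a₁) (q t₁')) m2'
        (hq.pos _ _ (by linarith) (by linarith)).le (nn _ _ ta1' (by linarith))
        (rows₁ hK hq h1 h6 R1 ta1' tb1' (by linarith) tb2')
        (by ext <;> simp only [det, Prod.fst_sub, Prod.snd_sub, Prod.smul_fst, Prod.smul_snd,
          smul_eq_mul] <;> ring)
      linarith)
    (by
      have := lo3 (q t₂') z₂' (det (q t₂') (q t₃')) (det (q t₂') (q b₃)) (det (q t₃') (q b₃)) m2'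
        (hq.pos _ _ (by linarith) (by linarith)).le (nn _ _ tb3' (by linarith))
        (rows₂ hK hq h5 h7 R3 ta2' (by linarith) ta3' tb3')
        (by ext <;> simp only [det, Prod.fst_sub, Prod.snd_sub, Prod.smul_fst, Prod.smul_snd,
          smul_eq_mul] <;> ring)
      linarith)
    (fun u => by
      have := lo2 (q t₃') z₃' (det (q t₂') (q t₃')) (det (q a₂ - q a₁) (q t₃'))
        (det (q a₂ - q a₁) (q t₂')) m3'
        (hq.pos _ _ (by linarith) (by linarith)).le u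
        (rowA t₂' t₃' ta2' tb2' (by linarith) tb3' u).le
        (by ext <;> simp only [det, Prod.fst_sub, Prod.snd_sub, Prod.smul_fst, Prod.smul_snd,
          smul_eq_mul] <;> ring)
      linarith)
    (fun u => by
      have := lo2 (q t₁') z₁' (det (q t₁') (q t₂')) (det (q t₁') (q a₂ - q a₁))
        (det (q t₂') (q a₂ - q a₁)) m1'
        (hq.pos _ _ (by linarith) (by linarith)).le u
        (rowB t₁' t₂' ta1' tb1' ta2' tb2' u)
        (by ext <;> simp only [det, Prod.fst_sub, Prod.snd_sub, Prod.smul_fst, Prod.smul_snd,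
          smul_eq_mul] <;> ring)
      linarith)
  have x2 := (Z _ _ m2).1
  have x2' := (Z _ _ m2').2
  have q1 := mul_nonneg hc.le x2
  have q2 := mul_nonneg hc'.le x2'
  have y0 : c * (1 - z₂) = 0 := by linarith
  have y0' : c' * (1 + z₂') = 0 := by linarith
  have y2 : z₂ = 1 := by
    rcases mul_eq_zero.1 y0 with h | h
    · exact absurd h hc.ne'
    · linarith
  have y2' : z₂' = -1 := by
    rcases mul_eq_zero.1 y0' with h | h
    · exact absurd h hc'.ne'
    · linarith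
  -- arc 1 alone
  have r1 := up1 (q t₂) z₂ (det (q t₁) (q t₂)) (det (q a₁) (q t₂)) (det (q a₁) (q t₁)) m2
      (hq.pos _ _ (by linarith) (by linarith)).le (nn _ _ ta1 (by linarith))
      (rows₁ hK hq h1 h6 R1 ta1 tb1 (by linarith) tb2)
      (by ext <;> simp only [det, Prod.fst_sub, Prod.snd_sub, Prod.smul_fst, Prod.smul_snd,
        smul_eq_mul] <;> ring)
  have r1' := lo1 (q t₂') z₂' (det (q t₁') (q t₂')) (det (q a₁) (q t₂')) (det (q a₁) (q t₁')) m2'
        (hq.pos _ _ (by linarith) (by linarith)).le (nn _ _ ta1' (by linarith))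
        (rows₁ hK hq h1 h6 R1 ta1' tb1' (by linarith) tb2')
        (by ext <;> simp only [det, Prod.fst_sub, Prod.snd_sub, Prod.smul_fst, Prod.smul_snd,
          smul_eq_mul] <;> ring)
  rw [y2] at r1
  rw [y2'] at r1'
  have w1 : 0 < det (q t₁) (q t₂) := hq.pos _ _ (by linarith) (by linarith)
  have w1' : 0 < det (q t₁') (q t₂') := hq.pos _ _ (by linarith) (by linarith)
  have w2 : 0 < det (q a₁) (q t₂) := hq.pos _ _ (by linarith) (by linarith)
  have w2' : 0 < det (q a₁) (q t₂') := hq.pos _ _ (by linarith) (by linarith)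
  have v1 := mul_nonneg w2.le (Z _ _ m1).1
  have v1' := mul_nonneg w2'.le (Z _ _ m1').2
  have σ0 : σ₁ = 0 := by
    apply le_antisymm
    · by_contra hcon
      push Not at hcon
      have := mul_pos w1' hcon
      linarith
    · by_contra hcon
      push Not at hcon
      have := mul_neg_of_pos_of_neg w1 hcon
      linarith
  rw [σ0, mul_zero] at r1 r1'
  have y1 : z₁ = 1 := by
    have h : det (q a₁) (q t₂) * (1 - z₁) = 0 := by linarith
    rcases mul_eq_zero.1 h with h | h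
    · exact absurd h w2.ne'
    · linarith
  have y1' : z₁' = -1 := by
    have h : det (q a₁) (q t₂') * (1 + z₁') = 0 := by linarith
    rcases mul_eq_zero.1 h with h | h
    · exact absurd h w2'.ne'
    · linarith
  rw [y1] at m1
  rw [y1'] at m1'
  rw [y2] at m2
  rw [y2'] at m2'
  exact ⟨⟨⟨t₁, ta1, tb1, m1⟩, ⟨t₁', ta1', tb1', m1'⟩⟩,
    ⟨⟨t₂, ta2, tb2, m2⟩, ⟨t₂', ta2', tb2', m2'⟩⟩⟩

theorem ch3 : Pool.Agent.H221.TW.S_ch3 :=
  fun _ hK _ hq _ _ _ _ _ _ h1 h2 h3 h4 h5 h6 h7 _ R1 R3 hT hC g1 g2 g3 =>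
    ch3' hK hq h1 h2 h3 h4 h5 h6 h7 R1 R3 hT hC g1 g2 g3

end Pool.Agent.H786.TW
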