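import Pool.Agent.H165.HW.PairMain

/-!
Project TW: the lemma on three bad arcs (CH3).  Planar algebra and the two extreme points of a
bad arc.
-/

set_option autoImplicit false

open Finset

namespace Pool.Agent.H786.TW

open Pool.Agent.H332.HT (V2 V3 det P IP T C Full Good Bi)
open Pool.Agent.H165.HW

/-- the columns: three upper (or lower) points -/
theorem core {a1 x1 a2 x2 b2 x3 b3 : V2} {X1 X2 X3 s1 s2 s3 : ℝ}
    (hX1 : 0 ≤ X1) (hX2 : 0 ≤ X2) (hX3 : 0 ≤ X3)
    (D12 : 0 < det x1 x2) (D23 : 0 < det x2 x3) (B : 0 < det b2 b3)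
    (K1 : 0 < det (a2 - a1) b2) (U1 : det (a2 - a1) b2 < det (a2 - a1) b3)
    (c1 : 0 ≤ det a1 x1) (c2 : 0 < det x1 a2) (c3 : 0 < det b2 x3) (c4 : 0 ≤ det x3 b3)
    (c5 : 0 < det a1 a2) (c6 : 0 < det a2 b3) (c7 : 0 < det a1 b2) (c8 : 0 < det x1 b2)
    (c9 : 0 < det a1 x2) (c10 : 0 ≤ det x2 b2) (c11 : 0 ≤ det a2 x2) (c12 : 0 < det x2 b3)
    (hC : det a1 x1 * det x3 b3 < det x1 a2 * det b2 x3)
    (h1 : det a1 x2 * X1 - det a1 x1 * X2 ≤ det x1 x2 * s1)
    (h3 : det x2 b3 * X3 - det x3 b3 * X2 ≤ det x2 x3 * s3)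
    (h2 : (0 ≤ det (a2 - a1) x2 ∧
        det (a2 - a1) x3 * X2 - det (a2 - a1) x2 * X3 ≤ det x2 x3 * s2) ∨
      (0 ≤ det x2 (a2 - a1) ∧
        det x1 (a2 - a1) * X2 - det x2 (a2 - a1) * X1 ≤ det x1 x2 * s2)) :
    ∃ c : ℝ, 0 < c ∧ c * X2 ≤ det b2 b3 * (s1 + s2) + det (a2 - a1) b2 * s3 := by
  obtain ⟨e, he⟩ : ∃ e : V2, e = a2 - a1 := ⟨_, rfl⟩
  rw [← he] at K1 U1 h2 ⊢
  have hE1 : ∀ v : V2, det e v = det a2 v - det a1 v := by
    intro v; rw [he]; simp only [det, Prod.fst_sub, Prod.snd_sub]; ring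
  have hE2 : ∀ v : V2, det v e = det v a2 - det v a1 := by
    intro v; rw [he]; simp only [det, Prod.fst_sub, Prod.snd_sub]; ring
  have U0 : 0 < det e b3 := K1.trans U1
  -- the value at `e`
  have Le : 0 < det e b3 * (det x1 a2 * det b2 x3) - det e b2 * (det a1 x1 * det x3 b3) := by
    have h := mul_lt_mul_of_pos_left hC K1
    have h' : det e b2 * (det x1 a2 * det b2 x3) ≤ det e b3 * (det x1 a2 * det b2 x3) :=
      mul_le_mul_of_nonneg_right U1.le (mul_pos c2 c3).le
    linarith
  rcases h2 with ⟨hx, h2⟩ | ⟨hx, h2⟩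
  · -- case A
    have hD : 0 < det a2 b3 * det x1 b2 - det a1 b2 * det x1 b3 := by
      rcases le_or_gt (det x1 b3) 0 with h | h
      · have h4 := mul_pos c6 c8
        have h5 := mul_nonpos_of_nonneg_of_nonpos c7.le h
        linarith
      · have h4 : det a2 b3 * det x1 b2 - det a1 b2 * det x1 b3 =
            det b2 b3 * det x1 a2 + det e b2 * det x1 b3 := by
          rw [hE1]; simp only [det]; ring
        rw [h4]
        have := mul_pos B c2
        have := mul_pos K1 h
        linarith
    have hL : 0 < det e b3 * det x1 x2 * det b2 x3 - det b2 b3 * det x2 x3 * det a1 x1 := by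
      have e1 : det e b2 * (det e b3 * det x1 x2 * det b2 x3 -
          det b2 b3 * det x2 x3 * det a1 x1) =
          det x2 b2 * (det e b3 * (det x1 a2 * det b2 x3) - det e b2 * (det a1 x1 * det x3 b3)) +
          det e x2 * (det b2 x3 * (det a2 b3 * det x1 b2 - det a1 b2 * det x1 b3)) := by
        rw [hE1, hE1, hE1]; simp only [det]; ring
      have h4 : 0 ≤ det x2 b2 * (det e b3 * (det x1 a2 * det b2 x3) -
          det e b2 * (det a1 x1 * det x3 b3)) := mul_nonneg c10 Le.le
      have h5 : 0 ≤ det e x2 * (det b2 x3 * (det a2 b3 * det x1 b2 - det a1 b2 * det x1 b3)) :=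
        mul_nonneg hx (mul_pos c3 hD).le
      have h6 : 0 < det x2 b2 * (det e b3 * (det x1 a2 * det b2 x3) -
          det e b2 * (det a1 x1 * det x3 b3)) +
          det e x2 * (det b2 x3 * (det a2 b3 * det x1 b2 - det a1 b2 * det x1 b3)) := by
        rcases eq_or_lt_of_le c10 with h7 | h7
        · rcases eq_or_lt_of_le hx with h8 | h8
          · -- both vanish
            exfalso
            have e2 : det e b2 * det x2 x3 = det x2 b2 * det e x3 + det e x2 * det b2 x3 := by
              simp only [det]; ring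
            rw [← h7, ← h8] at e2
            have := mul_pos K1 D23
            linarith
          · have := mul_pos h8 (mul_pos c3 hD)
            linarith
        · have := mul_pos h7 Le
          linarith
      rw [← e1] at h6
      exact (pos_iff_pos_of_mul_pos h6).1 K1
    refine ⟨(det e b3 * det x1 x2 * det b2 x3 - det b2 b3 * det x2 x3 * det a1 x1) /
      (det x1 x2 * det x2 x3), div_pos hL (mul_pos D12 D23), ?_⟩
    rw [div_mul_eq_mul_div, div_le_iff₀ (mul_pos D12 D23)]
    have g1 := mul_le_mul_of_nonneg_left h1 (mul_pos B D23).le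
    have g2 := mul_le_mul_of_nonneg_left h2 (mul_pos B D12).le
    have g3 := mul_le_mul_of_nonneg_left h3 (mul_pos K1 D12).le
    have g4 : 0 ≤ det b2 b3 * det x2 x3 * (det a1 x2 * X1) :=
      mul_nonneg (mul_pos B D23).le (mul_nonneg c9.le hX1)
    have g5 : 0 ≤ det x1 x2 * (det e b3 * det x2 b2) * X3 :=
      mul_nonneg (mul_nonneg D12.le (mul_nonneg U0.le c10)) hX3
    have i1 : det e b2 * det x2 b3 - det b2 b3 * det e x2 = det e b3 * det x2 b2 := by
      simp only [det]; ring
    have i2 : det b2 b3 * det e x3 - det e b2 * det x3 b3 = det e b3 * det b2 x3 := by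
      simp only [det]; ring
    have i3 : det b2 b3 * det x2 x3 * (det a1 x2 * X1 - det a1 x1 * X2) +
        det b2 b3 * det x1 x2 * (det e x3 * X2 - det e x2 * X3) +
        det e b2 * det x1 x2 * (det x2 b3 * X3 - det x3 b3 * X2) =
        det b2 b3 * det x2 x3 * (det a1 x2 * X1) +
        det x1 x2 * (det e b2 * det x2 b3 - det b2 b3 * det e x2) * X3 +
        (det x1 x2 * (det b2 b3 * det e x3 - det e b2 * det x3 b3) -
          det b2 b3 * det x2 x3 * det a1 x1) * X2 := by ring
    rw [i1, i2] at i3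
    nlinarith
  · -- case B
    have hD : 0 < det a2 b3 * det b2 x3 + det a1 b2 * det x3 b3 := by
      have := mul_pos c6 c3
      have := mul_nonneg c7.le c4
      linarith
    have hL : 0 < det b2 b3 * det x2 x3 * det x1 a2 - det e b2 * det x3 b3 * det x1 x2 := by
      have e1 : det a1 a2 * (det b2 b3 * det x2 x3 * det x1 a2 -
          det e b2 * det x3 b3 * det x1 x2) =
          det x2 e * (det x1 a2 * (det a2 b3 * det b2 x3 + det a1 b2 * det x3 b3)) +
          det a2 x2 * (det e b3 * (det x1 a2 * det b2 x3) -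
            det e b2 * (det a1 x1 * det x3 b3)) := by
        rw [hE1, hE1, hE2]; simp only [det]; ring
      have h4 : 0 ≤ det x2 e * (det x1 a2 * (det a2 b3 * det b2 x3 + det a1 b2 * det x3 b3)) :=
        mul_nonneg hx (mul_pos c2 hD).le
      have h5 : 0 ≤ det a2 x2 * (det e b3 * (det x1 a2 * det b2 x3) -
            det e b2 * (det a1 x1 * det x3 b3)) := mul_nonneg c11 Le.le
      have h6 : 0 < det x2 e * (det x1 a2 * (det a2 b3 * det b2 x3 + det a1 b2 * det x3 b3)) +
          det a2 x2 * (det e b3 * (det x1 a2 * det b2 x3) -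
            det e b2 * (det a1 x1 * det x3 b3)) := by
        rcases eq_or_lt_of_le c11 with h7 | h7
        · rcases eq_or_lt_of_le hx with h8 | h8
          · exfalso
            have e2 : det a1 x2 = det a2 x2 + det x2 e := by
              rw [hE2]; simp only [det]; ring
            rw [← h7, ← h8] at e2
            linarith
          · have := mul_pos h8 (mul_pos c2 hD)
            linarith
        · have := mul_pos h7 Le
          linarith
      rw [← e1] at h6
      exact (pos_iff_pos_of_mul_pos h6).1 c5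
    refine ⟨(det b2 b3 * det x2 x3 * det x1 a2 - det e b2 * det x3 b3 * det x1 x2) /
      (det x1 x2 * det x2 x3), div_pos hL (mul_pos D12 D23), ?_⟩
    rw [div_mul_eq_mul_div, div_le_iff₀ (mul_pos D12 D23)]
    have g1 := mul_le_mul_of_nonneg_left h1 (mul_pos B D23).le
    have g2 := mul_le_mul_of_nonneg_left h2 (mul_pos B D23).le
    have g3 := mul_le_mul_of_nonneg_left h3 (mul_pos K1 D12).le
    have g4 : 0 ≤ det b2 b3 * det x2 x3 * det a2 x2 * X1 :=
      mul_nonneg (mul_nonneg (mul_pos B D23).le c11) hX1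
    have g5 : 0 ≤ det e b2 * det x1 x2 * (det x2 b3 * X3) :=
      mul_nonneg (mul_pos K1 D12).le (mul_nonneg c12.le hX3)
    have i1 : det a1 x2 - det x2 e = det a2 x2 := by
      rw [hE2]; simp only [det]; ring
    have i2 : det x1 e - det a1 x1 = det x1 a2 := by
      rw [hE2]; simp only [det]; ring
    have i3 : det b2 b3 * det x2 x3 * (det a1 x2 * X1 - det a1 x1 * X2) +
        det b2 b3 * det x2 x3 * (det x1 e * X2 - det x2 e * X1) +
        det e b2 * det x1 x2 * (det x2 b3 * X3 - det x3 b3 * X2) =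
        det b2 b3 * det x2 x3 * (det a1 x2 - det x2 e) * X1 +
        det e b2 * det x1 x2 * (det x2 b3 * X3) +
        (det b2 b3 * det x2 x3 * (det x1 e - det a1 x1) - det e b2 * det x3 b3 * det x1 x2) *
          X2 := by ring
    rw [i1, i2] at i3
    nlinarith

end Pool.Agent.H786.TW
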